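import Pool.Agent.KS6_84.BesH.Main

/-! # Besicovitch cylindrical transformations over every irrational rotation

Over every irrational rotation there is a Besicovitch cylindrical transformation whose function is
`γ`-Hölder for every `γ < 1/(p-1)` for which `α` is not Liouville with exponent `p`. In particular,
for Lebesgue almost every `α`, there is one which is `γ`-Hölder for every `γ < 1`. -/

open Filter Set Topology MeasureTheory
open scoped NNReal

namespace Pool.Agent.Results.MP_f73729_an.EveryRotation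

/-- The cylindrical transformation `(x, y) ↦ (x + a, y + φ x)` of `ℝ/ℤ × ℝ`, as a bijection. -/
def cyl (a : UnitAddCircle) (φ : UnitAddCircle → ℝ) : Equiv.Perm (UnitAddCircle × ℝ) where
  toFun p := (p.1 + a, p.2 + φ p.1)
  invFun p := (p.1 - a, p.2 - φ (p.1 - a))
  left_inv p := by simp
  right_inv p := by simp

/-- The two-sided orbit of a point. -/
def orbit (a : UnitAddCircle) (φ : UnitAddCircle → ℝ) (p : UnitAddCircle × ℝ) :
    Set (UnitAddCircle × ℝ) :=
  Set.range fun n : ℤ => ((cyl a φ) ^ n) p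

/-- The cylindrical transformation is Besicovitch: some orbit is dense in `ℝ/ℤ × ℝ` and some
orbit has no accumulation point. -/
def IsBesicovitch (a : UnitAddCircle) (φ : UnitAddCircle → ℝ) : Prop :=
  (∃ p, Dense (orbit a φ p)) ∧ ∃ p, ∀ z, ¬ AccPt z (𝓟 (orbit a φ p))

/-- **Main theorem.** (1) For every irrational `α` there is a continuous `φ : ℝ/ℤ → ℝ` such that
`T_φ (x,y) = (x + α, y + φ x)` is Besicovitch, the Birkhoff sums `φ^(n)(0)` tend to `+∞` for
`|n| → ∞`, and `φ` is `γ`-Hölder for every `γ ≤ 1` with `γ (p - 1) < 1` for some `p` such that `α`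
is not Liouville with exponent `p`. (2) For Lebesgue almost every real `α`, and for every
irrational `α` which is not Liouville with any exponent `p > 2` (for instance, every badly
approximable `α`), this `φ` is `γ`-Hölder for every `γ < 1`. -/
theorem result :
    (∀ α : ℝ, Irrational α → ∃ φ : UnitAddCircle → ℝ, Continuous φ ∧
      IsBesicovitch (α : UnitAddCircle) φ ∧
      Tendsto (fun n : ℤ => (((cyl (α : UnitAddCircle) φ) ^ n) (0, 0)).2) cofinite atTop ∧
      ∀ p : ℝ, ¬ LiouvilleWith p α → ∀ γ : ℝ≥0, γ ≤ 1 → (γ : ℝ) * (p - 1) < 1 →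
        ∃ C : ℝ≥0, HolderWith C γ φ) ∧
    (∀ α : ℝ, Irrational α → (∀ p > (2 : ℝ), ¬ LiouvilleWith p α) →
      ∃ φ : UnitAddCircle → ℝ, IsBesicovitch (α : UnitAddCircle) φ ∧
        Tendsto (fun n : ℤ => (((cyl (α : UnitAddCircle) φ) ^ n) (0, 0)).2) cofinite atTop ∧
        ∀ γ : ℝ≥0, γ < 1 → ∃ C : ℝ≥0, HolderWith C γ φ) ∧
    (∀ᵐ α : ℝ, Irrational α ∧ ∀ p > (2 : ℝ), ¬ LiouvilleWith p α) := by
  have hcyl : ∀ (a : UnitAddCircle) (φ : UnitAddCircle → ℝ),
      cyl a φ = Pool.Agent.V11279.BesT.cyl a φ := fun a φ => rfl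
  have h1 : ∀ α : ℝ, Irrational α → ∃ φ : UnitAddCircle → ℝ, Continuous φ ∧
      IsBesicovitch (α : UnitAddCircle) φ ∧
      Tendsto (fun n : ℤ => (((cyl (α : UnitAddCircle) φ) ^ n) (0, 0)).2) cofinite atTop ∧
      ∀ p : ℝ, ¬ LiouvilleWith p α → ∀ γ : ℝ≥0, γ ≤ 1 → (γ : ℝ) * (p - 1) < 1 →
        ∃ C : ℝ≥0, HolderWith C γ φ := by
    intro α hα
    obtain ⟨D, rfl⟩ := Pool.Agent.KS6_84.BesH.exists_data hα
    have hB := Pool.Agent.KS6_84.BesH.isBesicovitch D
    refine ⟨Pool.Agent.KS6_84.BesH.f D, Pool.Agent.KS6_84.BesH.continuous_f D,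
      ⟨hB.exists_dense_orbit, hB.exists_discrete_orbit⟩, Pool.Agent.KS6_84.BesH.tendsto_S D,
      fun p hp γ hγ1 hγ => ?_⟩
    obtain ⟨hτ, c, hc, hd⟩ := Pool.Agent.KS6_84.BesH.dioph_of_not_liouvilleWith D.irr hp
    exact Pool.Agent.KS6_84.BesH.holder_f D hτ hc hd γ hγ1 hγ
  refine ⟨h1, fun α hα hp => ?_, ?_⟩
  · obtain ⟨φ, -, hB, hT, hH⟩ := h1 α hα
    refine ⟨φ, hB, hT, fun γ hγ => ?_⟩
    have hγ' : (γ : ℝ) < 1 := by exact_mod_cast hγ
    have hγ0 : (0 : ℝ) ≤ γ := γ.coe_nonneg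
    refine hH (3 - γ) (hp _ (by linarith)) γ hγ.le ?_
    nlinarith [mul_pos (sub_pos.2 hγ') (sub_pos.2 hγ')]
  · filter_upwards [ae_not_liouvilleWith,
      (Set.countable_range ((↑) : ℚ → ℝ)).ae_notMem volume] with α h2 h3
    exact ⟨h3, h2⟩

end Pool.Agent.Results.MP_f73729_an.EveryRotation
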